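import Pool.Agent.V11298.KD.Cls

/-!
# The hyperplane conjecture of Kannan, Lovasz and Simonovits for large subsets of bodies with symmetries

For all symmetric open bounded convex sets `Ω` which need have no symmetry other than `x ↦ -x` but are contained in
a bounded convex set `Ω'` of volume at most `M |Ω|` with many symmetries (invariant under permutations of the
coordinates, or under permutations of the particles of each of `q` species in `ℝ^d`, or under the automorphisms of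
a tree) the best central hyperplane cut is at most a constant times `M^(3/2)` times the perimeter of any set of half
the volume.

Method. (1) If `ν ≤ M μ` with `μ` log-concave then a bound `s` for the variances of all linear functionals of norm
one under `ν` gives `114 M² s` under `μ` (a slab of large measure forces exponential tails, by Prekopa-Leindler), so
the variance of every `1`-Lipschitz function under `ν` is at most `114 k M³ s` if `μ` satisfies the variance form
of KLS with the constant `k`. (2) This is applied to the densities `exp (- A/2 dist (x, r Ω)²) / Z`, which are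
dominated by `2 M` times those of `r Ω'` for large `A`. (3) A discrete heat flow turns the bound for the variances
of Lipschitz functions into an `L¹` inequality for functions, mollification into one for the De Giorgi perimeter.
-/

set_option autoImplicit false

namespace Pool.Agent.Results.MP_dc1397_gt.LargeSubsets

open MeasureTheory Set
open Pool.Agent.V11298.KD
open scoped ENNReal InnerProductSpace

/-- the Lebesgue measure of a Euclidean space -/
noncomputable def lebesgue (F : Type) [NormedAddCommGroup F] [InnerProductSpace ℝ F]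
    [FiniteDimensional ℝ F] [MeasurableSpace F] [BorelSpace F] : Measure F := volume

/-- the Lebesgue measure (of the Euclidean space `W`) of the section `Ω ∩ W` by a subspace `W` -/
noncomputable def areaIn {F : Type} [NormedAddCommGroup F] [InnerProductSpace ℝ F]
    [FiniteDimensional ℝ F] [MeasurableSpace F] [BorelSpace F] (W : Submodule ℝ F) (Ω : Set F) :
    ℝ≥0∞ := lebesgue W {y : W | (y : F) ∈ Ω}

section defs

variable {κ : Type} [Fintype κ]

open Classical in
/-- divergence of a vector field on `ℝ^κ` -/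
noncomputable def divergence (X : EuclideanSpace ℝ κ → EuclideanSpace ℝ κ)
    (x : EuclideanSpace ℝ κ) : ℝ :=
  ∑ i, fderiv ℝ X x (EuclideanSpace.single i 1) i

/-- `C¹` vector fields with compact support in `Ω` and `‖X‖ ≤ 1` -/
structure Test (Ω : Set (EuclideanSpace ℝ κ)) (X : EuclideanSpace ℝ κ → EuclideanSpace ℝ κ) :
    Prop where
  diff : ContDiff ℝ 1 X
  comp : HasCompactSupport X
  sub : tsupport X ⊆ Ω
  le : ∀ x, ‖X x‖ ≤ 1

/-- the (De Giorgi) perimeter `P(E; Ω)` of `E` relative to the open set `Ω` -/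
noncomputable def perimeter (E Ω : Set (EuclideanSpace ℝ κ)) : ℝ≥0∞ :=
  ⨆ (X : EuclideanSpace ℝ κ → EuclideanSpace ℝ κ) (_ : Test Ω X),
    ENNReal.ofReal (∫ x in E, divergence X x)

/-- the area (Lebesgue measure in the hyperplane `a^⊥`) of the central section of `Ω` by `a^⊥` -/
noncomputable def sectionArea (Ω : Set (EuclideanSpace ℝ κ)) (a : EuclideanSpace ℝ κ) : ℝ≥0∞ :=
  areaIn (Submodule.span ℝ {a})ᗮ Ω

/-- some central hyperplane section has area at most `K P(E; Ω)` for every measurable `E ⊆ Ω` with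
`|E| = |Ω| / 2` -/
def HyperplaneBound (K : ℝ) (Ω : Set (EuclideanSpace ℝ κ)) : Prop :=
  ∃ a : EuclideanSpace ℝ κ, a ≠ 0 ∧ ∀ E : Set (EuclideanSpace ℝ κ), MeasurableSet E → E ⊆ Ω →
    volume E = volume Ω / 2 → sectionArea Ω a ≤ ENNReal.ofReal K * perimeter E Ω

/-- `Ω = -Ω` is open, bounded, convex and nonempty, `Ω' ⊇ Ω` is convex and bounded, `|Ω'| ≤ M |Ω|` -/
structure LargeIn (Ω Ω' : Set (EuclideanSpace ℝ κ)) (M : ℝ) : Prop where
  op : IsOpen Ω
  conv : Convex ℝ Ω
  bdd : Bornology.IsBounded Ω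
  ne : Ω.Nonempty
  symm : ∀ x ∈ Ω, -x ∈ Ω
  conv' : Convex ℝ Ω'
  bdd' : Bornology.IsBounded Ω'
  sub : Ω ⊆ Ω'
  one_le : 1 ≤ M
  vol : volume Ω' ≤ ENNReal.ofReal M * volume Ω

/-- the perimeter is the one used in the proof -/
theorem perimeter_eq (E Ω : Set (EuclideanSpace ℝ κ)) :
    Pool.Agent.W695.KH.per E Ω = perimeter E Ω := by
  unfold perimeter Pool.Agent.W695.KH.per
  refine iSup_congr fun X => ?_
  refine iSup_congr_Prop ⟨fun h => ⟨h.1, h.2.1, h.2.2.1, h.2.2.2⟩,
    fun h => ⟨h.diff, h.comp, h.sub, h.le⟩⟩ fun _ => rfl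

end defs

/-- **The hyperplane conjecture for large subsets of convex sets with symmetries.** There is an absolute constant
`C > 0` such that for all `Ω = -Ω ⊆ Ω'` in `ℝ^κ` (`κ` finite and nonempty), `Ω` open, `Ω, Ω'` convex and bounded,
with `|Ω'| ≤ M |Ω|`, `M ≥ 1`, there is a central hyperplane `a^⊥` such that for every measurable `E ⊆ Ω` with
`|E| = |Ω| / 2` the area of `Ω ∩ a^⊥` is at most `K P(E; Ω)`, where
(1) `K = C √(k M³)` if every log-concave probability measure invariant under all linear isometries which preserve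
`Ω'` satisfies the variance form of KLS with the constant `k > 0` (`SymKLS Ω' k`);
(2) `K = C √(M³)` if `κ = {1, …, n}` and `Ω'` is invariant under permutations of the coordinates;
(3) `K = C √(q d⁴ (1 + log q)² M³)` if `Ω'` is a set of configurations of `N` particles in `ℝ^d` invariant under
permutations of the particles within their species (`q` species);
(4) `K = C √(C^(k²) (∏_j (1 + log N_j / m_j)²) M³)` if `Ω'` is a set of functions on the leaves of a tree (depth
`k`, every node of level `j` has `m_j` children, `N_j = m_0 ⋯ m_{j-1}`) invariant under the automorphisms. -/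
theorem result : ∃ C : ℝ, 0 < C ∧
    (∀ (κ : Type) [Fintype κ] [Nonempty κ] (Ω Ω' : Set (EuclideanSpace ℝ κ)) (M : ℝ), LargeIn Ω Ω' M →
      ∀ k : ℝ, 0 < k → SymKLS Ω' k → HyperplaneBound (C * Real.sqrt (k * M ^ 3)) Ω) ∧
    (∀ n : ℕ, 1 ≤ n → ∀ (Ω Ω' : Set (EuclideanSpace ℝ (Fin n))) (M : ℝ), LargeIn Ω Ω' M →
      (∀ σ : Equiv.Perm (Fin n), ∀ x y : EuclideanSpace ℝ (Fin n), (∀ i, y i = x (σ i)) → x ∈ Ω' → y ∈ Ω') →
      HyperplaneBound (C * Real.sqrt (M ^ 3)) Ω) ∧
    (∀ N d q : ℕ, 1 ≤ N → 1 ≤ d → ∀ b : Fin N → Fin q, Function.Surjective b →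
      ∀ (Ω Ω' : Set (EuclideanSpace ℝ (Fin N × Fin d))) (M : ℝ), LargeIn Ω Ω' M →
      (∀ σ : Equiv.Perm (Fin N), (∀ i, b (σ i) = b i) → ∀ x y : EuclideanSpace ℝ (Fin N × Fin d),
        (∀ i α, y (i, α) = x (σ i, α)) → x ∈ Ω' → y ∈ Ω') →
      HyperplaneBound (C * Real.sqrt ((q * (d : ℝ) ^ 4 * (1 + Real.log q) ^ 2) * M ^ 3)) Ω) ∧
    (∀ (k : ℕ) (m : Fin k → ℕ), 1 ≤ k → (∀ j, 1 ≤ m j) →
      ∀ (Ω Ω' : Set (EuclideanSpace ℝ ((j : Fin k) → Fin (m j)))) (M : ℝ), LargeIn Ω Ω' M →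
      (∀ ψ : Equiv.Perm ((j : Fin k) → Fin (m j)),
        (∀ (l : ℕ) (x y : (j : Fin k) → Fin (m j)), (∀ j : Fin k, j.val < l → x j = y j) ↔
          (∀ j : Fin k, j.val < l → ψ x j = ψ y j)) →
        ∀ x y : EuclideanSpace ℝ ((j : Fin k) → Fin (m j)), (∀ p, y p = x (ψ p)) → x ∈ Ω' → y ∈ Ω') →
      HyperplaneBound (C * Real.sqrt ((C ^ (k ^ 2) * ∏ j, (1 + Real.log (∏ i ∈ Finset.univ.filter
        (fun i => i < j), (m i : ℝ)) / m j) ^ 2) * M ^ 3)) Ω) := by
  obtain ⟨C₀, hC₀, H⟩ := hyp_sym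
  obtain ⟨C₁, hC₁, H₁⟩ := sym_exch
  obtain ⟨C₂, hC₂, H₂⟩ := sym_part
  obtain ⟨C₃, hC₃, H₃⟩ := sym_tree
  have base : ∀ (κ : Type) [Fintype κ] [Nonempty κ] (Ω Ω' : Set (EuclideanSpace ℝ κ)) (M : ℝ), LargeIn Ω Ω' M →
      ∀ k : ℝ, 0 < k → SymKLS Ω' k → HyperplaneBound (C₀ * Real.sqrt (k * M ^ 3)) Ω := by
    intro κ _ _ Ω Ω' M hL k hk hS
    have h0 : (0 : EuclideanSpace ℝ κ) ∈ Ω := by
      obtain ⟨x, hx⟩ := hL.ne
      have h1 := hL.conv hx (hL.symm x hx) (by norm_num : (0 : ℝ) ≤ 1 / 2)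
        (by norm_num : (0 : ℝ) ≤ 1 / 2) (by norm_num)
      simpa using h1
    obtain ⟨a, ha, h⟩ := H κ Ω Ω' hL.op hL.conv hL.bdd h0 hL.symm hL.conv' hL.bdd' hL.sub M hL.one_le hL.vol
      k hk hS
    refine ⟨a, ha, fun E hE hEΩ hvol => ?_⟩
    have h4 := h E hE hEΩ hvol
    rw [perimeter_eq] at h4
    exact h4
  have mono : ∀ {κ : Type} [Fintype κ] {Ω : Set (EuclideanSpace ℝ κ)} {K K' : ℝ}, K ≤ K' →
      HyperplaneBound K Ω → HyperplaneBound K' Ω := by
    intro κ _ Ω K K' hKK h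
    obtain ⟨a, ha, h⟩ := h
    refine ⟨a, ha, fun E hE hEΩ hvol => (h E hE hEΩ hvol).trans ?_⟩
    gcongr
  set C : ℝ := max C₀ (max (C₀ * Real.sqrt C₁) (max (C₀ * Real.sqrt C₂) C₃)) with hC
  have e0 : C₀ ≤ C := le_max_left _ _
  have e1 : C₀ * Real.sqrt C₁ ≤ C := (le_max_left _ _).trans (le_max_right _ _)
  have e2 : C₀ * Real.sqrt C₂ ≤ C := ((le_max_left _ _).trans (le_max_right _ _)).trans (le_max_right _ _)
  have e3 : C₃ ≤ C := ((le_max_right _ _).trans (le_max_right _ _)).trans (le_max_right _ _)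
  have hCp : 0 < C := lt_of_lt_of_le hC₀ e0
  refine ⟨C, hCp, ?_, ?_, ?_, ?_⟩
  · intro κ _ _ Ω Ω' M hL k hk hS
    exact mono (mul_le_mul_of_nonneg_right e0 (Real.sqrt_nonneg _)) (base κ Ω Ω' M hL k hk hS)
  · intro n hn Ω Ω' M hL hinv
    have hne : Nonempty (Fin n) := ⟨⟨0, hn⟩⟩
    have h1 := base (Fin n) Ω Ω' M hL C₁ hC₁ (H₁ n hn Ω' hinv)
    rw [Real.sqrt_mul hC₁.le, ← mul_assoc] at h1
    exact mono (mul_le_mul_of_nonneg_right e1 (Real.sqrt_nonneg _)) h1
  · intro N d q hN hd b hb Ω Ω' M hL hinv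
    have hne : Nonempty (Fin N × Fin d) := ⟨(⟨0, hN⟩, ⟨0, hd⟩)⟩
    have hq : 1 ≤ q := by
      have h1 : 0 < q := Fin.pos (b ⟨0, hN⟩)
      exact h1
    have hlog : 0 ≤ Real.log q := Real.log_nonneg (by exact_mod_cast hq)
    have hq0 : (0 : ℝ) < q := by exact_mod_cast hq
    have hd0 : (0 : ℝ) < d := by exact_mod_cast hd
    have h1 := base (Fin N × Fin d) Ω Ω' M hL (C₂ * (q * (d : ℝ) ^ 4 * (1 + Real.log q) ^ 2)) (by positivity)
      (H₂ N d q hN hd b hb Ω' hinv)
    rw [mul_assoc C₂, Real.sqrt_mul hC₂.le, ← mul_assoc] at h1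
    exact mono (mul_le_mul_of_nonneg_right e2 (Real.sqrt_nonneg _)) h1
  · intro k m hk hm Ω Ω' M hL hinv
    have hne : Nonempty ((j : Fin k) → Fin (m j)) := ⟨fun j => ⟨0, hm j⟩⟩
    have hfac : 0 < ∏ j : Fin k, (1 + Real.log (∏ i ∈ Finset.univ.filter (fun i => i < j), (m i : ℝ)) / m j) ^ 2 := by
      refine Finset.prod_pos fun j _ => ?_
      have h1 : 0 ≤ Real.log (∏ i ∈ Finset.univ.filter (fun i => i < j), (m i : ℝ)) / m j := by
        refine div_nonneg (Real.log_nonneg ?_) (Nat.cast_nonneg _)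
        refine Finset.prod_induction _ (fun x : ℝ => 1 ≤ x)
          (fun a b ha hb => one_le_mul_of_one_le_of_one_le ha hb) le_rfl fun i _ => ?_
        exact_mod_cast hm i
      positivity
    have hM0 : 0 ≤ M ^ 3 := pow_nonneg (by linarith [hL.one_le]) 3
    have h1 := base _ Ω Ω' M hL _ (mul_pos (pow_pos hC₃ (k ^ 2)) hfac) (H₃ k m hk hm Ω' hinv)
    refine mono ?_ h1
    refine mul_le_mul e0 (Real.sqrt_le_sqrt ?_) (Real.sqrt_nonneg _) hCp.le
    refine mul_le_mul_of_nonneg_right ?_ hM0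
    exact mul_le_mul_of_nonneg_right (pow_le_pow_left₀ hC₃.le e3 _) hfac.le

end Pool.Agent.Results.MP_dc1397_gt.LargeSubsets
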