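import Pool.Agent.V11317.NC.Hyp
import Pool.Agent.Results.MP_6d896a_gt.Towers
import Pool.Agent.Results.MP_dc1397_gt.LargeSubsets

/-!
# The hyperplane conjecture of Kannan, Lovasz and Simonovits for convex sets over bodies which satisfy KLS

Q1 with an absolute constant (for every fixed `m`) for all open bounded convex sets `Ω = -Ω ⊆ ℝ^m × ℝ^n`, `n`
arbitrary, whose closure is of the form `{(t, x) : t ∈ D, x ∈ α(t) + g(t) B}`, where `α` is affine, `g ≥ 0` is concave
on the convex set `D` and `B` satisfies the variance form of KLS, for example for double cones over `B`, for the unit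
ball of the `ℓ_p` sum of an `m`-dimensional space and the space with the unit ball `B`, for symmetric bodies of
revolution.

Method: (1) the theorem of `MP_6d896a_gt.Towers` for the variance form; (2) the variance form for the closure of `Ω`
bounds the variance of Lipschitz functions on the dilates `r Ω`, a discrete heat flow turns this into an `L¹`
inequality for functions of variance at least `1/5`, mollification into one for the De Giorgi perimeter (starting
files), one dimensional marginals bound the area of the section orthogonal to the direction of largest variance.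
-/

set_option autoImplicit false

namespace Pool.Agent.Results.MP_dc1397_gt.Towers

open MeasureTheory Set
open scoped ENNReal InnerProductSpace
open Pool.Agent.Results.MP_6d896a_gt.LargeSubsets (KLS unif)
open Pool.Agent.Results.MP_6d896a_gt.Towers (IsTower pair)
open LargeSubsets (HyperplaneBound)

/-- `Ω = -Ω` is open, bounded, convex and nonempty -/
structure SymmDomain {κ : Type} [Fintype κ] (Ω : Set (EuclideanSpace ℝ κ)) : Prop where
  op : IsOpen Ω
  conv : Convex ℝ Ω
  bdd : Bornology.IsBounded Ω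
  ne : Ω.Nonempty
  symm : ∀ x ∈ Ω, -x ∈ Ω

/-- `Ω = -Ω` is open, bounded, convex and nonempty, its closure is `{(t, x) : t ∈ D, x ∈ α(t) + g(t) B}`
(`IsTower`), and `B` is compact with nonempty interior -/
structure Over {ι ι' : Type} [Fintype ι] [Fintype ι'] (B : Set (EuclideanSpace ℝ ι'))
    (D : Set (EuclideanSpace ℝ ι)) (α : EuclideanSpace ℝ ι → EuclideanSpace ℝ ι')
    (g : EuclideanSpace ℝ ι → ℝ) (Ω : Set (EuclideanSpace ℝ (ι ⊕ ι'))) : Prop where
  dom : SymmDomain Ω
  tower : IsTower B D α g (closure Ω)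
  compact : IsCompact B
  int : (interior B).Nonempty

/-- `B ⊆ ℝ^n` is contained in a bounded measurable convex set `B'`, invariant under the permutations of the
coordinates of `ℝ^n`, with `|B'| ≤ M |B|`, `M ≥ 1` -/
def LargeInInvariant {n : ℕ} (B : Set (EuclideanSpace ℝ (Fin n))) (M : ℝ) : Prop :=
  1 ≤ M ∧ ∃ B' : Set (EuclideanSpace ℝ (Fin n)), Convex ℝ B' ∧ Bornology.IsBounded B' ∧ MeasurableSet B' ∧
    (∀ σ : Equiv.Perm (Fin n), ∀ x y : EuclideanSpace ℝ (Fin n), (∀ i, y i = x (σ i)) → x ∈ B' → y ∈ B') ∧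
    B ⊆ B' ∧ volume B' ≤ ENNReal.ofReal M * volume B

/-- **The hyperplane conjecture for sets over a body which satisfies KLS.** There is an absolute constant `C > 0`
such that for all open bounded convex sets `Ω = -Ω` there is a central hyperplane `a^⊥` such that for every
measurable `E ⊆ Ω` with `|E| = |Ω| / 2` the area of `Ω ∩ a^⊥` is at most `K P(E; Ω)` (`HyperplaneBound K Ω`), where
(1) `K = C √k` if the uniform measure on the closure of `Ω` satisfies the variance form of KLS with the constant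
`k > 0`;
(2) `K = C √(k + dim V + m + 1)` if the closure of `Ω` is `{(t, x) : t ∈ D, x ∈ α(t) + g(t) B}` in
`ℝ^ι × ℝ^ι'` (`Over`), `m = |ι|`, `|ι'| ≥ 1`, `B` compact with nonempty interior, the points `(t, α(t))`, `t ∈ D`,
lie in the affine subspace `p + V`, and the uniform measure on `B` satisfies the variance form with the constant
`k > 0`;
(3) `K = C √(k + m + 1)` if moreover `α` is affine;
(4) `K = C √(M³ + m)` if the closure of `Ω` is as in (3) where now `B ⊆ ℝ^n` is contained in a bounded measurable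
convex set `B'`, invariant under the permutations of the coordinates of `ℝ^n`, with `|B'| ≤ M |B|`, `M ≥ 1`; with
`B = B'` and `M = 1` these are all permutation invariant convex bodies. -/
theorem result : ∃ C : ℝ, 0 < C ∧
    (∀ (κ : Type) [Fintype κ] [Nonempty κ] (Ω : Set (EuclideanSpace ℝ κ)), SymmDomain Ω →
      ∀ k : ℝ, 0 < k → KLS (unif (closure Ω)) k → HyperplaneBound (C * Real.sqrt k) Ω) ∧
    (∀ (ι ι' : Type) [Fintype ι] [Fintype ι'] [Nonempty ι'] (B : Set (EuclideanSpace ℝ ι'))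
      (D : Set (EuclideanSpace ℝ ι)) (α : EuclideanSpace ℝ ι → EuclideanSpace ℝ ι')
      (g : EuclideanSpace ℝ ι → ℝ) (Ω : Set (EuclideanSpace ℝ (ι ⊕ ι'))), Over B D α g Ω →
      ∀ k : ℝ, 0 < k → KLS (unif B) k →
      ∀ (V : Submodule ℝ (EuclideanSpace ℝ (ι ⊕ ι'))) (p : EuclideanSpace ℝ (ι ⊕ ι')),
      (∀ t ∈ D, pair t (α t) - p ∈ V) →
      HyperplaneBound (C * Real.sqrt (k + Module.finrank ℝ V + Fintype.card ι + 1)) Ω) ∧
    (∀ (ι ι' : Type) [Fintype ι] [Fintype ι'] [Nonempty ι'] (B : Set (EuclideanSpace ℝ ι'))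
      (D : Set (EuclideanSpace ℝ ι)) (α : EuclideanSpace ℝ ι →ᵃ[ℝ] EuclideanSpace ℝ ι')
      (g : EuclideanSpace ℝ ι → ℝ) (Ω : Set (EuclideanSpace ℝ (ι ⊕ ι'))), Over B D α g Ω →
      ∀ k : ℝ, 0 < k → KLS (unif B) k → HyperplaneBound (C * Real.sqrt (k + Fintype.card ι + 1)) Ω) ∧
    (∀ m n : ℕ, 1 ≤ n → ∀ (B : Set (EuclideanSpace ℝ (Fin n))) (D : Set (EuclideanSpace ℝ (Fin m)))
        (α : EuclideanSpace ℝ (Fin m) →ᵃ[ℝ] EuclideanSpace ℝ (Fin n)) (g : EuclideanSpace ℝ (Fin m) → ℝ)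
        (Ω : Set (EuclideanSpace ℝ (Fin m ⊕ Fin n))), Over B D α g Ω → ∀ M : ℝ, LargeInInvariant B M →
      HyperplaneBound (C * Real.sqrt (M ^ 3 + m)) Ω) := by
  obtain ⟨C₀, hC₀, H⟩ := Pool.Agent.V11317.NC.hyp_var
  obtain ⟨T1, T2, C, hC, T3⟩ := Pool.Agent.Results.MP_6d896a_gt.Towers.result
  have base : ∀ (κ : Type) [Fintype κ] [Nonempty κ] (Ω : Set (EuclideanSpace ℝ κ)), SymmDomain Ω →
      ∀ k : ℝ, 0 < k → KLS (unif (closure Ω)) k → HyperplaneBound (C₀ * Real.sqrt k) Ω := by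
    intro κ _ _ Ω hΩ k hk hv
    have h0 : (0 : EuclideanSpace ℝ κ) ∈ Ω := by
      obtain ⟨x, hx⟩ := hΩ.ne
      have h1 := hΩ.conv hx (hΩ.symm x hx) (by norm_num : (0 : ℝ) ≤ 1 / 2)
        (by norm_num : (0 : ℝ) ≤ 1 / 2) (by norm_num)
      simpa using h1
    obtain ⟨a, ha, h⟩ := H κ Ω hΩ.op hΩ.conv hΩ.bdd h0 hΩ.symm k hk hv
    refine ⟨a, ha, fun E hE hEΩ hvol => ?_⟩
    have h4 := h E hE hEΩ hvol
    rw [LargeSubsets.perimeter_eq] at h4
    exact h4
  have mono : ∀ {κ : Type} [Fintype κ] {Ω : Set (EuclideanSpace ℝ κ)} {K K' : ℝ}, K ≤ K' →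
      HyperplaneBound K Ω → HyperplaneBound K' Ω := by
    intro κ _ Ω K K' hKK h
    obtain ⟨a, ha, h⟩ := h
    refine ⟨a, ha, fun E hE hEΩ hvol => (h E hE hEΩ hvol).trans ?_⟩
    gcongr
  obtain ⟨L, hLd⟩ : ∃ L : ℝ, L = max 3 C := ⟨_, rfl⟩
  have hL3 : 3 ≤ L := by rw [hLd]; exact le_max_left _ _
  have hLC : C ≤ L := by rw [hLd]; exact le_max_right _ _
  have hL0 : 0 < L := by linarith
  have comp : ∀ (x y : ℝ), x ≤ L * y → C₀ * Real.sqrt x ≤ C₀ * Real.sqrt L * Real.sqrt y := by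
    intro x y hxy
    rw [mul_assoc, ← Real.sqrt_mul hL0.le]
    exact mul_le_mul_of_nonneg_left (Real.sqrt_le_sqrt hxy) hC₀.le
  have hL1 : 1 ≤ Real.sqrt L := by
    rw [Real.one_le_sqrt]
    linarith
  refine ⟨C₀ * Real.sqrt L, by positivity, ?_, ?_, ?_, ?_⟩
  · intro κ _ _ Ω hΩ k hk hv
    refine mono ?_ (base κ Ω hΩ k hk hv)
    have h1 : C₀ * 1 ≤ C₀ * Real.sqrt L := mul_le_mul_of_nonneg_left hL1 hC₀.le
    rw [mul_one] at h1
    exact mul_le_mul_of_nonneg_right h1 (Real.sqrt_nonneg _)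
  · intro ι ι' _ _ _ B D α g Ω ⟨hΩ, hT, hB, hBi⟩ k hk hv V p hV
    have h1 := T1 ι ι' B D α g (closure Ω) hB hBi hT k hv V p hV
    have hr : (0 : ℝ) ≤ Module.finrank ℝ V := by positivity
    have hm : (0 : ℝ) ≤ Fintype.card ι := by positivity
    refine mono (comp _ _ ?_) (base _ Ω hΩ _ (by positivity) h1)
    have e1 : 3 * (k + Module.finrank ℝ V + Fintype.card ι + 1) ≤
        L * (k + Module.finrank ℝ V + Fintype.card ι + 1) := mul_le_mul_of_nonneg_right hL3 (by positivity)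
    linarith
  · intro ι ι' _ _ _ B D α g Ω ⟨hΩ, hT, hB, hBi⟩ k hk hv
    have h1 := T2 ι ι' B D α g (closure Ω) hB hBi hT k hv
    have hm : (0 : ℝ) ≤ Fintype.card ι := by positivity
    refine mono (comp _ _ ?_) (base _ Ω hΩ _ (by positivity) h1)
    have e1 : 3 * (k + Fintype.card ι + 1) ≤ L * (k + Fintype.card ι + 1) :=
      mul_le_mul_of_nonneg_right hL3 (by positivity)
    linarith
  · intro m n hn B D α g Ω ⟨hΩ, hT, hB, hBi⟩ M ⟨hM, B', hconv, hbd, hmeas, hinv, hsub, hvol⟩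
    have h1 := T3 n hn B B' hconv hbd hmeas hinv hB hBi hsub M hM hvol m D α g (closure Ω) hT
    have hM3 : (1 : ℝ) ≤ M ^ 3 := one_le_pow₀ hM
    have hM0 : 0 < M := by linarith
    have hm : (0 : ℝ) ≤ m := by positivity
    have hne : Nonempty (Fin m ⊕ Fin n) := ⟨Sum.inr ⟨0, hn⟩⟩
    refine mono (comp _ _ ?_) (base _ Ω hΩ _ (by positivity) h1)
    have e1 : C * M ^ 3 ≤ L * M ^ 3 := mul_le_mul_of_nonneg_right hLC (by positivity)
    have e2 : 3 * (m : ℝ) ≤ L * m := mul_le_mul_of_nonneg_right hL3 hm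
    linarith

end Pool.Agent.Results.MP_dc1397_gt.Towers
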