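import Pool.Agent.Results.MP_6d896a_gt.DirectSums
import Pool.Agent.Results.MP_dc1397_gt.Towers

/-!
# The hyperplane conjecture of Kannan, Lovasz and Simonovits for direct sums of bodies which satisfy KLS

Let `ℝ^n = ⊕_j ℝ^(n_j)`, `j = 1, …, q`, and let `B_j ⊂ ℝ^(n_j)` be bodies with the barycentre at the origin which satisfy
the variance form of KLS. Then Q1 holds with a constant which depends only on `q` (and on the constant of the `B_j`)
for all open bounded convex sets `Ω = -Ω` such that every nonempty section of the closure of `Ω` parallel to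
`ℝ^(n_j)` is a multiple of `B_j`, for every `j`, for example for the unit balls of the `ψ`-direct sums (such as the
`ℓ_p` sums) of `q` normed spaces whose unit balls satisfy KLS.

Method: the theorem of `MP_6d896a_gt.DirectSums` for the variance form, and `MP_dc1397_gt.Towers` for the passage from
the variance form to the hyperplane form.
-/

set_option autoImplicit false

namespace Pool.Agent.Results.MP_dc1397_gt.DirectSums

open MeasureTheory Set
open scoped ENNReal InnerProductSpace
open Pool.Agent.Results.MP_6d896a_gt.LargeSubsets (KLS unif)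
open Pool.Agent.Results.MP_6d896a_gt.DirectSums (Centred LargeInInvariant IsDirectSum Psi part)
open LargeSubsets (HyperplaneBound)
open Towers (SymmDomain)

/-- **The hyperplane conjecture for direct sums of bodies which satisfy KLS.** There is an absolute constant `C > 0`
such that the following holds. Let the coordinates of `ℝ^κ` be divided into `q = |J|` nonempty blocks, let `B j`,
`j ∈ J`, be compact sets with nonempty interior in the blocks, with the barycentre at the origin, and let `Ω = -Ω` be
an open bounded convex set, such that all nonempty sections of the closure of `Ω` parallel to the block `j` are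
multiples of `B j`, for every `j`. Then there is a central hyperplane `a^⊥` such that for every measurable `E ⊆ Ω`
with `|E| = |Ω| / 2` the area of `Ω ∩ a^⊥` is at most `K P(E; Ω)` (`HyperplaneBound K Ω`), where
(1) `K = C √(q (k + q))` if the uniform measures on the `B j` satisfy the variance form of KLS with the constant
`k ≥ 0`;
(2) `K = C √(q (M³ + q))` if every `B j` is contained in a bounded measurable convex set `B' j`, invariant under the
permutations of the coordinates in the block, with `|B' j| ≤ M |B j|`, `M ≥ 1`.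
(3) For every `ψ` as in `Psi` the set of the `x` such that `ψ (‖x_1‖, …, ‖x_q‖) ≤ 1`, where `‖·‖` is the gauge of
`B j`, is a convex body of the kind considered, if the `B j` are convex and contain the origin in the interior. -/
theorem result : ∃ C : ℝ, 0 < C ∧
    (∀ (κ J : Type) [Fintype κ] [Fintype J] [Nonempty J] [DecidableEq J] (c : κ → J),
      Function.Surjective c → ∀ B : ∀ j, Set (EuclideanSpace ℝ {i // c i = j}), (∀ j, Centred (B j)) →
      ∀ k : ℝ, 0 ≤ k → (∀ j, KLS (unif (B j)) k) →
      ∀ Ω : Set (EuclideanSpace ℝ κ), SymmDomain Ω → IsDirectSum c B (closure Ω) →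
      HyperplaneBound (C * Real.sqrt (Fintype.card J * (k + Fintype.card J))) Ω) ∧
    (∀ (κ J : Type) [Fintype κ] [Fintype J] [Nonempty J] [DecidableEq J] (c : κ → J),
      Function.Surjective c → ∀ B : ∀ j, Set (EuclideanSpace ℝ {i // c i = j}), (∀ j, Centred (B j)) →
      ∀ M : ℝ, (∀ j, LargeInInvariant (B j) M) →
      ∀ Ω : Set (EuclideanSpace ℝ κ), SymmDomain Ω → IsDirectSum c B (closure Ω) →
      HyperplaneBound (C * Real.sqrt (Fintype.card J * (M ^ 3 + Fintype.card J))) Ω) ∧
    (∀ (κ J : Type) [Fintype κ] [DecidableEq J] (c : κ → J)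
      (B : ∀ j, Set (EuclideanSpace ℝ {i // c i = j})), (∀ j, Centred (B j)) → (∀ j, Convex ℝ (B j)) →
      (∀ j, 0 ∈ interior (B j)) → ∀ ψ : (J → ℝ) → ℝ, Psi ψ →
      IsDirectSum c B {x | ψ (fun j => gauge (B j) (part c j x)) ≤ 1}) := by
  obtain ⟨C₀, hC₀, base, -⟩ := Towers.result
  obtain ⟨T1, T2, C, hC, T3⟩ := Pool.Agent.Results.MP_6d896a_gt.DirectSums.result
  have mono : ∀ {κ : Type} [Fintype κ] {Ω : Set (EuclideanSpace ℝ κ)} {K K' : ℝ}, K ≤ K' →
      HyperplaneBound K Ω → HyperplaneBound K' Ω := by
    intro κ _ Ω K K' hKK h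
    obtain ⟨a, ha, h⟩ := h
    refine ⟨a, ha, fun E hE hEΩ hvol => (h E hE hEΩ hvol).trans ?_⟩
    gcongr
  obtain ⟨L, hLd⟩ : ∃ L : ℝ, L = max 12 C := ⟨_, rfl⟩
  have hL3 : 12 ≤ L := by rw [hLd]; exact le_max_left _ _
  have hLC : C ≤ L := by rw [hLd]; exact le_max_right _ _
  have hL0 : 0 < L := by linarith
  have comp : ∀ (x y : ℝ), x ≤ L * y → C₀ * Real.sqrt x ≤ C₀ * Real.sqrt L * Real.sqrt y := by
    intro x y hxy
    rw [mul_assoc, ← Real.sqrt_mul hL0.le]
    exact mul_le_mul_of_nonneg_left (Real.sqrt_le_sqrt hxy) hC₀.le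
  refine ⟨C₀ * Real.sqrt L, by positivity, ?_, ?_, T2⟩
  · intro κ J _ _ _ _ c hc B hB k hk hv Ω hΩ hK
    have h1 := T1 κ J c hc B hB k hk hv (closure Ω) hK
    have hne : Nonempty κ := ⟨(hc (Classical.arbitrary J)).choose⟩
    have hq : (1 : ℝ) ≤ Fintype.card J := by
      have : 1 ≤ Fintype.card J := Fintype.card_pos
      exact_mod_cast this
    refine mono (comp _ _ ?_) (base κ Ω hΩ _ (by positivity) h1)
    obtain ⟨q, hq'⟩ : ∃ q : ℝ, q = Fintype.card J := ⟨_, rfl⟩
    rw [← hq'] at hq ⊢
    have e1 : 12 * (q * (k + q)) ≤ L * (q * (k + q)) := mul_le_mul_of_nonneg_right hL3 (by positivity)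
    refine le_trans ?_ e1
    have e2 : 3 * q * (k + 2 * q + 2) ≤ 3 * q * (4 * (k + q)) :=
      mul_le_mul_of_nonneg_left (by linarith) (by positivity)
    linarith
  · intro κ J _ _ _ _ c hc B hB M hM Ω hΩ hK
    have hM1 : 1 ≤ M := (hM (Classical.arbitrary J)).1
    have h1 := T3 κ J c hc B hB M hM (closure Ω) hK
    have hne : Nonempty κ := ⟨(hc (Classical.arbitrary J)).choose⟩
    have hq : (1 : ℝ) ≤ Fintype.card J := by
      have : 1 ≤ Fintype.card J := Fintype.card_pos
      exact_mod_cast this
    refine mono (comp _ _ ?_) (base κ Ω hΩ _ (by positivity) h1)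
    obtain ⟨q, hq'⟩ : ∃ q : ℝ, q = Fintype.card J := ⟨_, rfl⟩
    rw [← hq'] at hq ⊢
    have e1 : C * (q * (M ^ 3 + q)) ≤ L * (q * (M ^ 3 + q)) := mul_le_mul_of_nonneg_right hLC (by positivity)
    linarith

end Pool.Agent.Results.MP_dc1397_gt.DirectSums
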