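import Pool.Agent.Results.MP_6d896a_gt.SymmetricBase
import Pool.Agent.Results.MP_dc1397_gt.Towers

/-!
# The hyperplane conjecture of Kannan, Lovasz and Simonovits for convex sets over a symmetric base

Q1 with an absolute constant, in all dimensions `m` and `n`, for all open bounded convex sets
`Ω = -Ω ⊆ ℝ^m × ℝ^n` whose closure is of the form `{(t, x) : t ∈ D, x ∈ g(t) B}`, where `B` is any body in `ℝ^n` with
the barycentre `0` which satisfies the variance form of KLS and where `D` and the concave function `g ≥ 0` are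
invariant under the permutations of the coordinates of `ℝ^m` (or under another one of the groups of the starting
files).

Method: the theorem of `MP_6d896a_gt.SymmetricBase` for the variance form, and `MP_dc1397_gt.Towers` for the passage
from the variance form to the hyperplane form.
-/

set_option autoImplicit false

namespace Pool.Agent.Results.MP_dc1397_gt.SymmetricBase

open MeasureTheory Set
open scoped ENNReal InnerProductSpace
open Pool.Agent.Results.MP_6d896a_gt.LargeSubsets (KLS unif)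
open Pool.Agent.Results.MP_6d896a_gt.SymmetricBase (left baryLaw Over SymOver Permuted PermutedSpecies SameNorms
  LargeInInvariant)
open LargeSubsets (HyperplaneBound)
open Towers (SymmDomain)

/-- **The hyperplane conjecture for convex sets over a symmetric base.** There is an absolute constant `C > 0` such
that the following holds. Let `Ω = -Ω ⊆ ℝ^m × ℝ^n` be an open bounded convex nonempty set whose closure is
`{(t, x) : t ∈ D, x ∈ α(t) + g(t) B}` (`Over`), and let the uniform measure on `B` satisfy the variance form of KLS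
with the constant `k ≥ 0`. Then there is a central hyperplane `a^⊥` such that for every measurable `E ⊆ Ω` with
`|E| = |Ω| / 2` the area of `Ω ∩ a^⊥` is at most `K P(E; Ω)` (`HyperplaneBound K Ω`), where
(1) `K = C √(k + k' + 1)` if the law of the barycentres of the sections of the closure of `Ω` satisfies the variance
form with the constant `k' ≥ 0`;
(2)-(4) if `α = 0` and the barycentre of `B` is `0`: `K = C √(k + 1)` if `D` and `g` are invariant under the
permutations of the coordinates of `ℝ^m`, `m ≥ 1`, `K = C √(k + q d⁴ (1 + log q)²)` if they are invariant under the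
permutations of `N` particles in `ℝ^d` of `q` species which preserve the species, and `K = C √(k + (1 + T)²)` if they
are radial in each vector and symmetric in blocks of `l_β` vectors in `ℝ^(m_β)` with `∑_β exp (- T l_β m_β) ≤ 1`;
(5) `K = C M^(3/2)` in the case of permutations if, instead of the hypothesis on the uniform measure on `B`, the body
`B ⊆ ℝ^n` is a large subset of a permutation invariant convex set (`LargeInInvariant B M`). -/
theorem result : ∃ C : ℝ, 0 < C ∧
    (∀ (ι ι' : Type) [Fintype ι] [Fintype ι'] (B : Set (EuclideanSpace ℝ ι'))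
      (D : Set (EuclideanSpace ℝ ι)) (α : EuclideanSpace ℝ ι → EuclideanSpace ℝ ι')
      (g : EuclideanSpace ℝ ι → ℝ) (Ω : Set (EuclideanSpace ℝ (ι ⊕ ι'))), SymmDomain Ω →
      Over B D α g (closure Ω) → ∀ k k' : ℝ, 0 ≤ k → 0 ≤ k' → KLS (unif B) k →
      KLS (baryLaw B α g (closure Ω)) k' → HyperplaneBound (C * Real.sqrt (k + k' + 1)) Ω) ∧
    (∀ m : ℕ, 1 ≤ m → ∀ (ι' : Type) [Fintype ι'] (B : Set (EuclideanSpace ℝ ι'))
      (Ω : Set (EuclideanSpace ℝ (Fin m ⊕ ι'))), SymmDomain Ω → SymOver Permuted B (closure Ω) →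
      ∀ k : ℝ, 0 ≤ k → KLS (unif B) k → HyperplaneBound (C * Real.sqrt (k + 1)) Ω) ∧
    (∀ N d q : ℕ, 1 ≤ N → 1 ≤ d → ∀ b : Fin N → Fin q, Function.Surjective b →
      ∀ (ι' : Type) [Fintype ι'] (B : Set (EuclideanSpace ℝ ι'))
      (Ω : Set (EuclideanSpace ℝ ((Fin N × Fin d) ⊕ ι'))), SymmDomain Ω →
      SymOver (PermutedSpecies b) B (closure Ω) → ∀ k : ℝ, 0 ≤ k → KLS (unif B) k →
      HyperplaneBound (C * Real.sqrt (k + q * (d : ℝ) ^ 4 * (1 + Real.log q) ^ 2)) Ω) ∧
    (∀ (b : ℕ) (l m : Fin b → ℕ), (∀ β, 1 ≤ l β) → (∀ β, 1 ≤ m β) →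
      ∀ T : ℝ, 0 ≤ T → ∑ β, Real.exp (-(T * (l β * m β))) ≤ 1 →
      ∀ (ι' : Type) [Fintype ι'] (B : Set (EuclideanSpace ℝ ι'))
      (Ω : Set (EuclideanSpace ℝ ((Σ β : Fin b, Fin (l β) × Fin (m β)) ⊕ ι'))), SymmDomain Ω →
      SymOver SameNorms B (closure Ω) → ∀ k : ℝ, 0 ≤ k → KLS (unif B) k →
      HyperplaneBound (C * Real.sqrt (k + (1 + T) ^ 2)) Ω) ∧
    (∀ m : ℕ, 1 ≤ m → ∀ (n : ℕ) (B : Set (EuclideanSpace ℝ (Fin n)))
      (Ω : Set (EuclideanSpace ℝ (Fin m ⊕ Fin n))) (M : ℝ), LargeInInvariant B M → SymmDomain Ω →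
      SymOver Permuted B (closure Ω) → HyperplaneBound (C * Real.sqrt (M ^ 3)) Ω) := by
  obtain ⟨C₀, hC₀, base, -⟩ := Towers.result
  obtain ⟨T1, -, C, hC, T3, T4, T5, T6⟩ := Pool.Agent.Results.MP_6d896a_gt.SymmetricBase.result
  have mono : ∀ {κ : Type} [Fintype κ] {Ω : Set (EuclideanSpace ℝ κ)} {K K' : ℝ}, K ≤ K' →
      HyperplaneBound K Ω → HyperplaneBound K' Ω := by
    intro κ _ Ω K K' hKK h
    obtain ⟨a, ha, h⟩ := h
    refine ⟨a, ha, fun E hE hEΩ hvol => (h E hE hEΩ hvol).trans ?_⟩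
    gcongr
  obtain ⟨L, hLd⟩ : ∃ L : ℝ, L = C + 4 := ⟨_, rfl⟩
  have hL4 : 4 ≤ L := by rw [hLd]; linarith
  have hLC : C ≤ L := by rw [hLd]; linarith
  have hL0 : 0 < L := by linarith
  have comp : ∀ (x y : ℝ), x ≤ L * y → C₀ * Real.sqrt x ≤ C₀ * Real.sqrt L * Real.sqrt y := by
    intro x y hxy
    rw [mul_assoc, ← Real.sqrt_mul hL0.le]
    exact mul_le_mul_of_nonneg_left (Real.sqrt_le_sqrt hxy) hC₀.le
  have step : ∀ k c : ℝ, 0 ≤ k → 0 ≤ c → k + C * c ≤ L * (k + c) := by
    intro k c hk hc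
    have h1 : k * 1 ≤ k * L := mul_le_mul_of_nonneg_left (by linarith) hk
    have h2 : C * c ≤ L * c := mul_le_mul_of_nonneg_right hLC hc
    linarith
  have nem : ∀ {ι ι' : Type} [Fintype ι] [Fintype ι'] {R : EuclideanSpace ℝ ι → EuclideanSpace ℝ ι → Prop}
      {B : Set (EuclideanSpace ℝ ι')} {K : Set (EuclideanSpace ℝ (ι ⊕ ι'))}, SymOver R B K →
      Nonempty (ι ⊕ ι') := by
    intro ι ι' _ _ R B K h
    obtain ⟨D, g, hO, -⟩ := h.sections
    have := hO.dim
    exact ⟨Sum.inr (Classical.arbitrary ι')⟩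
  refine ⟨C₀ * Real.sqrt L, by positivity, ?_, ?_, ?_, ?_, ?_⟩
  · intro ι ι' _ _ B D α g Ω hΩ hO k k' hk hk' h1 h2
    have h3 := T1 ι ι' B D α g (closure Ω) hO k k' h1 h2
    have := hO.dim
    have hne : Nonempty (ι ⊕ ι') := ⟨Sum.inr (Classical.arbitrary ι')⟩
    refine mono (comp _ _ ?_) (base _ Ω hΩ _ (by positivity) h3)
    have e1 : 4 * (k + k' + 1) ≤ L * (k + k' + 1) := mul_le_mul_of_nonneg_right hL4 (by positivity)
    linarith
  · intro m hm ι' _ B Ω hΩ hS k hk h1
    have h3 := T3 m hm ι' B (closure Ω) hS k h1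
    have hne := nem hS
    refine mono (comp _ _ ?_) (base _ Ω hΩ _ (by positivity) h3)
    have := step k 1 hk zero_le_one
    linarith
  · intro N d q hN hd b hb ι' _ B Ω hΩ hS k hk h1
    have h3 := T4 N d q hN hd b hb ι' B (closure Ω) hS k h1
    have hne := nem hS
    have hq : 1 ≤ q := by
      have h1 : 0 < q := Fin.pos (b ⟨0, hN⟩)
      exact h1
    have hq0 : (0 : ℝ) < q := by exact_mod_cast hq
    have hd0 : (0 : ℝ) < d := by exact_mod_cast hd
    have hlog : 0 ≤ Real.log q := Real.log_nonneg (by exact_mod_cast hq)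
    exact mono (comp _ _ (step k _ hk (by positivity))) (base _ Ω hΩ _ (by positivity) h3)
  · intro b l m hl hm T hT0 hT ι' _ B Ω hΩ hS k hk h1
    have h3 := T5 b l m hl hm T hT0 hT ι' B (closure Ω) hS k h1
    have hne := nem hS
    exact mono (comp _ _ (step k _ hk (by positivity))) (base _ Ω hΩ _ (by positivity) h3)
  · intro m hm n B Ω M hM hΩ hS
    have h3 := (T6 m hm n B (closure Ω) M hM hS).1
    have hne := nem hS
    have hM1 := hM.1
    have hM0 : 0 < M := by linarith
    refine mono (comp _ _ (mul_le_mul_of_nonneg_right hLC (by positivity))) (base _ Ω hΩ _ (by positivity) h3)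

end Pool.Agent.Results.MP_dc1397_gt.SymmetricBase
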